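import Mathlib

/-! Part FILLM of project DQ (helper446): small changes of the vanishing coefficients of a diagonal
quadric; the general lemma. -/

set_option autoImplicit false

namespace Pool.Agent.U446.DQ

theorem two {m : ℕ} {K : Type} [Field K] (w : Fin m → K) (p q : Fin m) (hpq : p ≠ q)
    (x y : K) (hx : x ≠ 0) (h : w p * x ^ 2 + w q * y ^ 2 = 0) :
    ∃ u : Fin m → K, u ≠ 0 ∧ ∑ l, w l * u l ^ 2 = 0 := by
  refine ⟨fun l => if l = p then x else if l = q then y else 0, ?_, ?_⟩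
  · intro hu
    apply hx
    have h1 := congrFun hu p
    simpa using h1
  · rw [Fintype.sum_eq_add p q hpq]
    · simpa [hpq.symm] using h
    · rintro l ⟨h1, h2⟩
      simp [h1, h2]

theorem core (K : Type) [NontriviallyNormedField K] (m : ℕ) (hm : 3 ≤ m) (a : Fin m → K)
    (ha : ∃ u : Fin m → K, u ≠ 0 ∧ ∑ l, a l * u l ^ 2 = 0) (δ : ℝ) (hδ : 0 < δ) :
    ∃ w : Fin m → K, (∀ k, w k ≠ 0) ∧ (∀ k, a k ≠ 0 → w k = a k) ∧
    (∀ k, a k = 0 → ‖w k‖ < δ) ∧ ∃ u : Fin m → K, u ≠ 0 ∧ ∑ l, w l * u l ^ 2 = 0 := by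
  classical
  by_cases hall : ∀ k, a k ≠ 0
  · exact ⟨a, hall, fun k _ => rfl, fun k hk => absurd hk (hall k), ha⟩
  push Not at hall
  obtain ⟨k0, hk0⟩ := hall
  by_cases hex : ∃ l, a l ≠ 0
  · obtain ⟨l0, hl0⟩ := hex
    obtain ⟨s, hs⟩ : ∃ s : ℝ, s = 1 + ‖a l0‖ := ⟨_, rfl⟩
    have n0 := norm_nonneg (a l0)
    have hs1 : 1 ≤ s := by rw [hs]; linarith
    have hs0 : 0 < s := by linarith
    obtain ⟨η, hη, hη2⟩ := NormedField.exists_norm_lt K (r := min δ (min 1 (δ / s)))
      (lt_min hδ (lt_min one_pos (div_pos hδ hs0)))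
    have hη0 : η ≠ 0 := norm_pos_iff.1 hη
    have hηδ : ‖η‖ < δ := hη2.trans_le (min_le_left _ _)
    have hη1 : ‖η‖ < 1 := hη2.trans_le ((min_le_right _ _).trans (min_le_left _ _))
    have hηs : ‖η‖ < δ / s := hη2.trans_le ((min_le_right _ _).trans (min_le_right _ _))
    rw [lt_div_iff₀ hs0] at hηs
    have m0 : ‖-(a l0 * η ^ 2)‖ < δ := by
      rw [norm_neg, norm_mul, norm_pow]
      have h1 : ‖η‖ ^ 2 ≤ ‖η‖ := by nlinarith
      have h2 : ‖a l0‖ * ‖η‖ ^ 2 ≤ s * ‖η‖ :=
        mul_le_mul (by rw [hs]; linarith) h1 (by positivity) hs0.le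
      linarith
    have hkl : l0 ≠ k0 := by
      rintro rfl
      exact hl0 hk0
    refine ⟨fun k => if k = k0 then -(a l0 * η ^ 2) else if a k = 0 then η else a k, ?_, ?_, ?_,
      two _ l0 k0 hkl η 1 hη0 ?_⟩
    · intro k
      dsimp only
      split_ifs with h1 h2
      · exact neg_ne_zero.2 (mul_ne_zero hl0 (pow_ne_zero _ hη0))
      · exact hη0
      · exact h2
    · intro k hk
      dsimp only
      have h1 : k ≠ k0 := by
        rintro rfl
        exact hk hk0
      rw [if_neg h1, if_neg hk]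
    · intro k hk
      dsimp only
      split_ifs with h1
      · exact m0
      · exact hηδ
    · rw [if_neg hkl, if_neg hl0, if_pos rfl]
      ring
  · push Not at hex
    obtain ⟨η, hη, hη2⟩ := NormedField.exists_norm_lt K (r := δ) hδ
    have hη0 : η ≠ 0 := norm_pos_iff.1 hη
    have h01 : (⟨0, by omega⟩ : Fin m) ≠ ⟨1, by omega⟩ := by
      intro h
      have := congrArg Fin.val h
      simp at this
    refine ⟨fun k => if k = ⟨0, by omega⟩ then -η else η, ?_, fun k hk => absurd (hex k) hk, ?_,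
      two _ ⟨0, by omega⟩ ⟨1, by omega⟩ h01 1 1 one_ne_zero ?_⟩
    · intro k
      dsimp only
      split_ifs
      · exact neg_ne_zero.2 hη0
      · exact hη0
    · intro k _
      dsimp only
      split_ifs
      · rw [norm_neg]
        exact hη2
      · exact hη2
    · rw [if_pos rfl, if_neg h01.symm]
      ring

end Pool.Agent.U446.DQ
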