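import Mathlib
import Pool.Agent.U424.DQ.Stm
import Pool.Agent.U446.DQ.Core

/-! Part FILLM of project DQ (helper446): small changes of the vanishing coefficients of a diagonal
quadric. -/

set_option autoImplicit false

namespace Pool.Agent.U446.DQ

open Pool.Agent.U424.DQ

theorem fillm_ (K : Type) [NontriviallyNormedField K] : S_FILLM K := by
  intro m hm a ha δ hδ
  exact core K m hm a ha δ hδ

end Pool.Agent.U446.DQ
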